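import Pool.Agent.E8helper4.FV2.K5
import Pool.Agent.E8helper52.FV.C34

set_option autoImplicit false
set_option linter.unusedVariables false

open Complex MeasureTheory Metric Set Filter Topology ComplexConjugate
open Pool.Agent.Results.MP_83fd13_an.BranchSingularities (Solvable)

namespace Pool.Agent.E8helper4.FV

theorem ki (k1 : K1) (k1b : K1b) (k2 : K2) (k3 : K3) (k4 : K4) (k6 : K6) (c1 : C1) : KI := by
  intro φ r lam hr hφ hinj hlam hS
  obtain ⟨u3, u2, v1⟩ := t_K5a k1 k1b k2 k3 k4 φ r lam hr hφ hinj hlam hS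
  obtain ⟨j1, j2⟩ := t_K5b k1 k1b k2 k3 k4 φ r lam hr hφ hinj hlam hS
  obtain ⟨e1, e2⟩ := k6 k1 k1b c1 φ r lam hr hφ hinj hlam hS
  have ha : ((lam / 4 : ℝ) : ℂ) ≠ 0 := by
    rw [Ne, Complex.ofReal_eq_zero]; positivity
  have hc : ∀ z : ℂ, conj z = 0 → z = 0 := fun z hz => by
    simpa using hz
  rw [u3, mul_zero] at e1
  rw [v1, u2, mul_zero, sub_zero, mul_zero] at e2
  rw [hc _ e1, add_zero] at j1
  rw [hc _ e2, add_zero] at j2
  exact ⟨(mul_eq_zero.mp j1).resolve_left ha, (mul_eq_zero.mp j2).resolve_left ha⟩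

/-- derivatives of `f = fb` and `h = Re (i e^{-i th} (x - b))` -/
lemma fb_der {φ : ℂ → ℂ} {r : ℝ} (hr : 1 < r) (hφ : DifferentiableOn ℂ φ (ball 0 r))
    {th : ℝ → ℝ} (h : Ang2 φ th) (b : ℂ) (t : ℝ) :
    HasDerivAt (fb φ th b) (‖deriv φ (exp ((t : ℂ) * I))‖ - om φ t *
      (I * exp (-((th t : ℂ) * I)) * (xx φ t - b)).re) t ∧
    HasDerivAt (fun t => (I * exp (-((th t : ℂ) * I)) * (xx φ t - b)).re)
      (om φ t * fb φ th b t) t := by
  have hx := xx_der hr hφ t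
  have hth : HasDerivAt (fun t => ((th t : ℝ) : ℂ)) ((om φ t : ℝ) : ℂ) t := (h.dth t).ofReal_comp
  have he : HasDerivAt (fun t => exp (-((th t : ℂ) * I)))
      (exp (-((th t : ℂ) * I)) * (-((om φ t : ℂ) * I))) t := ((hth.mul_const I).neg).cexp
  have hxb : HasDerivAt (fun t => xx φ t - b) (xd φ t) t := hx.sub_const b
  have hp := he.mul hxb
  have hone : exp (-((th t : ℂ) * I)) * xd φ t = (‖deriv φ (exp ((t : ℂ) * I))‖ : ℂ) := by
    rw [h.tan t]
    rw [mul_left_comm, ← exp_add]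
    simp
  have hre : ∀ {g : ℝ → ℂ} {g' : ℂ}, HasDerivAt g g' t →
      HasDerivAt (fun t => (g t).re) g'.re t := fun {g g'} hg => by
    have := Complex.reCLM.hasFDerivAt.comp_hasDerivAt t hg
    exact this
  constructor
  · have := hre hp
    refine this.congr_deriv ?_
    rw [hone]
    have : exp (-((th t : ℂ) * I)) * (-((om φ t : ℂ) * I)) * (xx φ t - b) =
      -((om φ t : ℂ) * (I * exp (-((th t : ℂ) * I)) * (xx φ t - b))) := by ring
    rw [this, Complex.add_re, Complex.neg_re, Complex.re_ofReal_mul, Complex.ofReal_re]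
    ring
  · have h2 := hre (hp.const_mul I)
    have e : (fun t => (I * exp (-((th t : ℂ) * I)) * (xx φ t - b)).re) =
        fun t => (I * ((fun t => exp (-((th t : ℂ) * I))) * fun t => xx φ t - b) t).re := by
      funext t
      simp only [Pi.mul_apply]
      rw [mul_assoc]
    rw [e]
    refine h2.congr_deriv ?_
    rw [hone]
    have : I * (exp (-((th t : ℂ) * I)) * (-((om φ t : ℂ) * I)) * (xx φ t - b) +
        (‖deriv φ (exp ((t : ℂ) * I))‖ : ℂ)) =
      (om φ t : ℂ) * (exp (-((th t : ℂ) * I)) * (xx φ t - b)) +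
        (‖deriv φ (exp ((t : ℂ) * I))‖ : ℂ) * I := by
      linear_combination (-(om φ t : ℂ) * exp (-((th t : ℂ) * I)) * (xx φ t - b)) * I_sq
    rw [this, Complex.add_re, Complex.re_ofReal_mul, Complex.re_ofReal_mul]
    simp [fb]

theorem fin7 (ki : KI) (b1 : B1) (d1 : D1) (d2 : D2) (d3 : D3) (d4 : D4) (d5 : D5) : Fin7 := by
  intro φ r lam hr hφ hinj hlam hS
  refine ⟨ki φ r lam hr hφ hinj hlam hS, fun hk => ?_⟩
  obtain ⟨J1, J2⟩ := ki φ r lam hr hφ hinj hlam hS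
  have hv : ∀ t : ℝ, 0 < ‖deriv φ (exp ((t : ℂ) * I))‖ := fun t =>
    norm_pos_iff.2 (Pool.Agent.Helper202.Geom.deriv_ne_zero_of_injOn isOpen_ball hφ hinj
      (mem_r hr t))
  have hom : ∀ t, om φ t = kap φ t * ‖deriv φ (exp ((t : ℂ) * I))‖ := fun t => by
    unfold kap; rw [div_mul_cancel₀ _ (hv t).ne']
  have ho : ∀ t, 0 ≤ om φ t := fun t => by rw [hom t]; exact mul_nonneg (hk t) (hv t).le
  obtain ⟨th, hth⟩ := d1 φ r hr hφ hinj ho
  obtain ⟨t1, t2, t3, t4, b, h12, h23, h34, h41, e3, e4, f1, f2, f3, f4⟩ :=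
    d2 b1 φ r th hr hφ ho hth
  by_cases hz : ∃ c d : ℝ, c < d ∧ ∀ s ∈ Ioo c d, fb φ th b s = 0
  · obtain ⟨c, d, hcd, hz⟩ := hz
    exact Or.inl (d5 φ r th b c d hr hφ hinj hth hcd hz)
  · right
    have hnz : ∀ c d : ℝ, c < d → ∃ s ∈ Ioo c d, fb φ th b s ≠ 0 := by
      intro c d hcd
      by_contra hcon
      push Not at hcon
      exact hz ⟨c, d, hcd, hcon⟩
    obtain ⟨s0, -, hs0⟩ := hnz 0 1 one_pos
    obtain ⟨p, q, hp, hq⟩ := d4 φ r th b t1 t2 hr hφ hinj hth J1 J2 ⟨s0, hs0⟩ hnz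
    have hkc : ContDiff ℝ 1 (kap φ) := Pool.Agent.E8helper52.FV.cd_kap hr hφ hinj
    have hkd : ∀ t, HasDerivAt (kap φ) (deriv (kap φ) t) t := fun t =>
      (hkc.differentiable (by norm_num) t).hasDerivAt
    have hk1 : Continuous (deriv (kap φ)) := hkc.continuous_deriv (by norm_num)
    have eper : ∀ t : ℝ, exp (((t + 2 * Real.pi : ℝ) : ℂ) * I) = exp ((t : ℂ) * I) := fun t => by
      push_cast
      rw [add_mul, Complex.exp_add, Complex.exp_two_pi_mul_I, mul_one]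
    exact d3 (fb φ th b) (fun t => (I * exp (-((th t : ℂ) * I)) * (xx φ t - b)).re) th (om φ)
      (fun t => ‖deriv φ (exp ((t : ℂ) * I))‖) (kap φ) (deriv (kap φ)) t1 t2 t3 t4 p q
      (fun t => (fb_der hr hφ hth b t).1) (fun t => (fb_der hr hφ hth b t).2) hth.dth hkd hk1
      hv hk hom hth.mth hth.pth
      (fun t => by
        unfold fb xx
        rw [hth.pth t, eper t]
        congr 2
        push_cast
        rw [add_mul, neg_add, Complex.exp_add]
        rw [Complex.exp_neg (2 * (Real.pi : ℂ) * I), Complex.exp_two_pi_mul_I]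
        simp)
      (fun t => by
        unfold kap om
        rw [eper t])
      h12 h23 h34 h41 e3 e4 f1 f2 f3 f4 hnz hp hq

end Pool.Agent.E8helper4.FV
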