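import Pool.Agent.E8helper4.FV2.Asm2
import Pool.Agent.E8helper8.FV.K1
import Pool.Agent.E8helper99.FV.K1b
import Pool.Agent.E8helper80.FV.K2
import Pool.Agent.E8helper97.FV.K3
import Pool.Agent.E8helper43.FV.K4
import Pool.Agent.E8helper13.FV.K6
import Pool.Agent.E8helper36.FV.D1
import Pool.Agent.E8helper36.FV.D2
import Pool.Agent.E8helper81.FV2.D3
import Pool.Agent.E8helper80.FV.D4
import Pool.Agent.E8helper10.FV2.D5
import Pool.Agent.E8helper77.FV.B13
import Pool.Agent.E8helper38.FV.C1F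

set_option autoImplicit false

namespace Pool.Agent.E8helper4.FV

theorem t_ki : KI :=
  ki Pool.Agent.E8helper8.FV.t_K1 Pool.Agent.E8helper99.FV.t_K1b Pool.Agent.E8helper80.FV.k2
    Pool.Agent.E8helper97.FV.k3 Pool.Agent.E8helper43.FV.k4 Pool.Agent.E8helper13.FV.t_K6
    Pool.Agent.E8helper38.FV.t_C1

theorem t_fin7 : Fin7 :=
  fin7 t_ki Pool.Agent.E8helper77.FV.t_B1 Pool.Agent.E8helper36.FV.t_D1
    Pool.Agent.E8helper36.FV.t_D2 Pool.Agent.E8helper81.FV2.t_D3 Pool.Agent.E8helper80.FV.d4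
    Pool.Agent.E8helper10.FV2.t_D5

end Pool.Agent.E8helper4.FV
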