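import Pool.Agent.E8helper4.FV.Stm2
import Pool.Agent.Helper202.Geom

set_option autoImplicit false
set_option linter.unusedVariables false

open Complex MeasureTheory Metric Set Filter Topology ComplexConjugate
open Pool.Agent.Results.MP_83fd13_an.BranchSingularities (Solvable)

namespace Pool.Agent.E8helper4.FV

lemma hs_congr {f g : ℕ → ℂ} {b : ℂ} (h : ∀ k, f k = g k) (hg : HasSum g b) : HasSum f b := by
  rw [funext h]; exact hg

lemma fin_sum (f : ℕ → ℂ) (n : ℕ) (h : ∀ k, n ≤ k → f k = 0) :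
    HasSum f (∑ k ∈ Finset.range n, f k) :=
  hasSum_sum_of_ne_finset_zero (fun k hk => h k (by rw [Finset.mem_range] at hk; omega))

lemma mem_r {r : ℝ} (hr : 1 < r) (t : ℝ) : exp ((t : ℂ) * I) ∈ ball (0 : ℂ) r := by
  simp only [mem_ball, dist_zero_right, norm_exp_ofReal_mul_I]; exact hr

lemma mem_c (t : ℝ) : exp ((t : ℂ) * I) ∈ closedBall (0 : ℂ) 1 := by
  simp only [mem_closedBall, dist_zero_right, norm_exp_ofReal_mul_I]; exact le_refl _

lemma cont_circ {g : ℂ → ℂ} {r : ℝ} (hr : 1 < r) (hg : DifferentiableOn ℂ g (ball 0 r)) :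
    Continuous fun t : ℝ => g (exp ((t : ℂ) * I)) := by
  have h : ContinuousOn g (ball 0 r) := hg.continuousOn
  rw [← continuousOn_univ]
  exact h.comp (by fun_prop) (fun t _ => mem_r hr t)

lemma xx_cont {φ : ℂ → ℂ} {r : ℝ} (hr : 1 < r) (hφ : DifferentiableOn ℂ φ (ball 0 r)) :
    Continuous (xx φ) := cont_circ hr hφ

lemma xd_cont {φ : ℂ → ℂ} {r : ℝ} (hr : 1 < r) (hφ : DifferentiableOn ℂ φ (ball 0 r)) :
    Continuous (xd φ) := by
  have h := cont_circ hr (hφ.deriv isOpen_ball)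
  unfold xd
  fun_prop

lemma xx_der {φ : ℂ → ℂ} {r : ℝ} (hr : 1 < r) (hφ : DifferentiableOn ℂ φ (ball 0 r)) (t : ℝ) :
    HasDerivAt (xx φ) (xd φ t) t := by
  have h1 : HasDerivAt φ (deriv φ (exp ((t : ℂ) * I))) (exp ((t : ℂ) * I)) :=
    ((hφ _ (mem_r hr t)).differentiableAt (isOpen_ball.mem_nhds (mem_r hr t))).hasDerivAt
  have h2 : HasDerivAt (fun t : ℝ => exp ((t : ℂ) * I)) (exp ((t : ℂ) * I) * (1 * I)) t := by
    have : HasDerivAt (fun t : ℝ => (t : ℂ) * I) (1 * I) t :=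
      (Complex.ofRealCLM.hasDerivAt (x := t)).mul_const I
    exact this.cexp
  have h3 := h1.comp_of_eq t h2 rfl
  refine h3.congr_deriv ?_
  unfold xd; ring

lemma xx_per (φ : ℂ → ℂ) : xx φ (2 * Real.pi) = xx φ 0 := by
  unfold xx; congr 1; push_cast; rw [Complex.exp_two_pi_mul_I]; simp

/-- Taylor's formula under the inner integral -/
lemma tay (h1 : K1) {φ : ℂ → ℂ} {r : ℝ} (a : ℝ) (hr : 1 < r)
    (hφ : DifferentiableOn ℂ φ (ball 0 r)) (m : ℤ) (t : ℝ) :
    HasSum (fun k : ℕ => (-(a : ℂ) * conj (xx φ t)) ^ k / (k.factorial : ℂ) *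
      hh a φ (m + k) t) (HH a φ m t) := by
  have hx := xx_cont hr hφ
  have hxd := xd_cont hr hφ
  set Z : ℂ := -(a : ℂ) * conj (xx φ t) with hZ
  have hb : ContinuousOn (fun s : ℝ => Real.exp (‖xx φ t - xx φ s‖ + ‖(a : ℂ) * conj (xx φ s)‖) *
      ‖xd φ s‖) (uIcc 0 t) := by
    have : Continuous fun s : ℝ => conj (xx φ s) := Complex.continuous_conj.comp hx
    fun_prop
  obtain ⟨B, hB⟩ := isCompact_uIcc.exists_bound_of_continuousOn hb
  have key := intervalIntegral.hasSum_integral_of_dominated_convergence (μ := volume)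
    (a := (0 : ℝ)) (b := t)
    (F := fun (k : ℕ) (s : ℝ) => Z ^ k / (k.factorial : ℂ) *
      (kp (m + k) (xx φ t - xx φ s) ((a : ℂ) * conj (xx φ s)) * xd φ s))
    (f := fun s => kp m (xx φ t - xx φ s) (-(a : ℂ) * (conj (xx φ t) - conj (xx φ s))) * xd φ s)
    (fun k _ => ‖Z‖ ^ k / (k.factorial : ℝ) * B) ?_ ?_ ?_ ?_ ?_
  · have e1 : (fun k : ℕ => Z ^ k / (k.factorial : ℂ) * hh a φ (m + k) t) =
        fun n : ℕ => ∫ s in (0 : ℝ)..t, Z ^ n / (n.factorial : ℂ) *
          (kp (m + n) (xx φ t - xx φ s) ((a : ℂ) * conj (xx φ s)) * xd φ s) := by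
      funext k
      rw [intervalIntegral.integral_const_mul]; rfl
    rw [e1]
    exact key
  · intro k
    apply Continuous.aestronglyMeasurable
    have hc := (h1 (m + k)).1
    have h2 : Continuous fun s : ℝ => kp (m + k) (xx φ t - xx φ s) ((a : ℂ) * conj (xx φ s)) :=
      hc.comp (f := fun s : ℝ => ((xx φ t - xx φ s, (a : ℂ) * conj (xx φ s)) : ℂ × ℂ))
        ((continuous_const.sub hx).prodMk
          (continuous_const.mul (Complex.continuous_conj.comp hx)))
    fun_prop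
  · intro k
    refine Eventually.of_forall fun s hs => ?_
    have hb' := hB s (uIoc_subset_uIcc hs)
    have h3 := (h1 (m + k)).2.2.2.1 (xx φ t - xx φ s) ((a : ℂ) * conj (xx φ s))
    rw [norm_mul, norm_mul, norm_div, norm_pow]
    have e : ‖(k.factorial : ℂ)‖ = (k.factorial : ℝ) := by
      rw [Complex.norm_natCast]
    rw [e]
    apply mul_le_mul_of_nonneg_left _ (by positivity)
    refine le_trans ?_ (le_trans (le_abs_self _) hb')
    exact mul_le_mul_of_nonneg_right h3 (norm_nonneg _)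
  · refine Eventually.of_forall fun s hs => ?_
    exact (Real.summable_pow_div_factorial ‖Z‖).mul_right B
  · exact intervalIntegrable_const
  · refine Eventually.of_forall fun s hs => ?_
    have h4 := (h1 m).2.2.2.2.1 (xx φ t - xx φ s) ((a : ℂ) * conj (xx φ s)) Z
    have h5 := h4.mul_right (xd φ s)
    have e2 : (a : ℂ) * conj (xx φ s) + Z = -(a : ℂ) * (conj (xx φ t) - conj (xx φ s)) := by
      rw [hZ]; ring
    rw [e2] at h5
    exact hs_congr (fun k => by ring) h5

lemma hh_cont (h1 : K1) {φ : ℂ → ℂ} {r : ℝ} (a : ℝ) (hr : 1 < r)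
    (hφ : DifferentiableOn ℂ φ (ball 0 r)) (m : ℤ) : Continuous (hh a φ m) := by
  have hx := xx_cont hr hφ
  have hxd := xd_cont hr hφ
  have hc := (h1 m).1
  unfold hh
  apply intervalIntegral.continuous_parametric_intervalIntegral_of_continuous _ continuous_id
  have h2 : Continuous fun p : ℝ × ℝ => kp m (xx φ p.1 - xx φ p.2) ((a : ℂ) * conj (xx φ p.2)) :=
    hc.comp (f := fun p : ℝ × ℝ => ((xx φ p.1 - xx φ p.2, (a : ℂ) * conj (xx φ p.2)) : ℂ × ℂ))
      (((hx.comp continuous_fst).sub (hx.comp continuous_snd)).prodMk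
        (continuous_const.mul (Complex.continuous_conj.comp (hx.comp continuous_snd))))
  exact h2.mul (hxd.comp continuous_snd)

lemma HH_cont (h1 : K1) {φ : ℂ → ℂ} {r : ℝ} (a : ℝ) (hr : 1 < r)
    (hφ : DifferentiableOn ℂ φ (ball 0 r)) (m : ℤ) : Continuous (HH a φ m) := by
  have hx := xx_cont hr hφ
  have hxd := xd_cont hr hφ
  have hc := (h1 m).1
  unfold HH
  apply intervalIntegral.continuous_parametric_intervalIntegral_of_continuous _ continuous_id
  have hX := Complex.continuous_conj.comp hx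
  have h2 : Continuous fun p : ℝ × ℝ => kp m (xx φ p.1 - xx φ p.2)
      (-(a : ℂ) * (conj (xx φ p.1) - conj (xx φ p.2))) :=
    hc.comp (f := fun p : ℝ × ℝ => ((xx φ p.1 - xx φ p.2,
        -(a : ℂ) * (conj (xx φ p.1) - conj (xx φ p.2))) : ℂ × ℂ))
      (((hx.comp continuous_fst).sub (hx.comp continuous_snd)).prodMk
        (continuous_const.mul ((hX.comp continuous_fst).sub (hX.comp continuous_snd))))
  exact h2.mul (hxd.comp continuous_snd)

/-- the local terms -/
noncomputable def LL (a : ℝ) (φ : ℂ → ℂ) (m : ℤ) (t : ℝ) : ℂ :=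
  if m = -1 then 1 else if m = -2 then (a : ℂ) * conj (xx φ t) else
  if m = -3 then (a : ℂ) * (conj (xd φ t) / xd φ t) + ((a : ℂ) * conj (xx φ t)) ^ 2 / 2 else 0

/-- the sum of the series with local terms -/
lemma ser (h1 : K1) {φ : ℂ → ℂ} {r : ℝ} (a : ℝ) (hr : 1 < r)
    (hφ : DifferentiableOn ℂ φ (ball 0 r)) (m : ℤ) (t : ℝ) (S : ℂ)
    (hS : HasSum (fun k : ℕ => (-(a : ℂ) * conj (xx φ t)) ^ k / (k.factorial : ℂ) *
      LL a φ (m + k) t) S) :
    HasSum (fun k : ℕ => (-(a : ℂ) * conj (xx φ t)) ^ k / (k.factorial : ℂ) *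
      (LL a φ (m + k) t + hh a φ (m + k) t)) (S + HH a φ m t) := by
  have h := hS.add (tay h1 a hr hφ m t)
  exact hs_congr (fun k => by ring) h

lemma loc3 (a : ℝ) (φ : ℂ → ℂ) (t : ℝ) :
    HasSum (fun k : ℕ => (-(a : ℂ) * conj (xx φ t)) ^ k / (k.factorial : ℂ) *
      LL a φ (-3 + k) t) ((a : ℂ) * (conj (xd φ t) / xd φ t)) := by
  have h := fin_sum (fun k : ℕ =>
    (-(a : ℂ) * conj (xx φ t)) ^ k / (k.factorial : ℂ) * LL a φ (-3 + k) t) 3 (by
      intro k hk
      have : LL a φ (-3 + k) t = 0 := by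
        unfold LL
        rw [if_neg (by omega), if_neg (by omega), if_neg (by omega)]
      rw [this, mul_zero])
  convert h using 1
  simp only [Finset.sum_range_succ, Finset.sum_range_zero, LL]
  norm_num
  ring

lemma loc2 (a : ℝ) (φ : ℂ → ℂ) (t : ℝ) :
    HasSum (fun k : ℕ => (-(a : ℂ) * conj (xx φ t)) ^ k / (k.factorial : ℂ) *
      LL a φ (-1 + k) t) 1 := by
  have h := fin_sum (fun k : ℕ =>
    (-(a : ℂ) * conj (xx φ t)) ^ k / (k.factorial : ℂ) * LL a φ (-1 + k) t) 1 (by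
      intro k hk
      have : LL a φ (-1 + k) t = 0 := by
        unfold LL
        rw [if_neg (by omega), if_neg (by omega), if_neg (by omega)]
      rw [this, mul_zero])
  convert h using 1
  simp [LL]

lemma locp (a : ℝ) (φ : ℂ → ℂ) (t : ℝ) (m : ℤ) (hm : 0 ≤ m) :
    HasSum (fun k : ℕ => (-(a : ℂ) * conj (xx φ t)) ^ k / (k.factorial : ℂ) *
      LL a φ (m + k) t) 0 := by
  have e : (fun k : ℕ => (-(a : ℂ) * conj (xx φ t)) ^ k / (k.factorial : ℂ) *
      LL a φ (m + k) t) = fun _ => 0 := by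
    funext k
    have : LL a φ (m + k) t = 0 := by
      unfold LL
      rw [if_neg (by omega), if_neg (by omega), if_neg (by omega)]
    rw [this, mul_zero]
  rw [e]; exact hasSum_zero

/-- exchange of sum and integral -/
lemma exch {φ : ℂ → ℂ} {r : ℝ} (a : ℝ) (hr : 1 < r) (hφ : DifferentiableOn ℂ φ (ball 0 r))
    (s : ℕ → ℝ → ℂ) (F : ℝ → ℂ) (hs : ∀ k, Continuous (s k)) (C M : ℝ)
    (hC : ∀ k t, ‖s k t‖ ≤ C * M ^ k)
    (hF : ∀ t, HasSum (fun k : ℕ => (-(a : ℂ) * conj (xx φ t)) ^ k / (k.factorial : ℂ) * s k t)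
      (F t))
    (h0 : HasSum (fun k : ℕ => (-(a : ℂ)) ^ k / (k.factorial : ℂ) *
      ∫ t in (0 : ℝ)..(2 * Real.pi), conj (xx φ t) ^ k * s k t * conj (xd φ t)) 0) :
    ∫ t in (0 : ℝ)..(2 * Real.pi), F t * conj (xd φ t) = 0 := by
  have hx := xx_cont hr hφ
  have hxd := xd_cont hr hφ
  have hX := Complex.continuous_conj.comp hx
  have hXd := Complex.continuous_conj.comp hxd
  obtain ⟨B1, hB1⟩ := (isCompact_uIcc (a := (0 : ℝ)) (b := 2 * Real.pi)).exists_bound_of_continuousOn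
    hx.continuousOn
  obtain ⟨B2, hB2⟩ := (isCompact_uIcc (a := (0 : ℝ)) (b := 2 * Real.pi)).exists_bound_of_continuousOn
    hxd.continuousOn
  have key := intervalIntegral.hasSum_integral_of_dominated_convergence (μ := volume)
    (a := (0 : ℝ)) (b := 2 * Real.pi)
    (F := fun (k : ℕ) (t : ℝ) => (-(a : ℂ)) ^ k / (k.factorial : ℂ) *
      (conj (xx φ t) ^ k * s k t * conj (xd φ t)))
    (f := fun t => F t * conj (xd φ t))
    (fun k _ => (|a| * B1 * M) ^ k / (k.factorial : ℝ) * (C * B2)) ?_ ?_ ?_ ?_ ?_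
  · have e1 : (fun k : ℕ => (-(a : ℂ)) ^ k / (k.factorial : ℂ) *
      ∫ t in (0 : ℝ)..(2 * Real.pi), conj (xx φ t) ^ k * s k t * conj (xd φ t)) =
        fun n : ℕ => ∫ t in (0 : ℝ)..(2 * Real.pi), (-(a : ℂ)) ^ n / (n.factorial : ℂ) *
          (conj (xx φ t) ^ n * s n t * conj (xd φ t)) := by
      funext k
      rw [intervalIntegral.integral_const_mul]
    rw [e1] at h0
    exact key.unique h0
  · intro k
    apply Continuous.aestronglyMeasurable
    have := hs k
    have hX' : Continuous fun t => conj (xx φ t) := hX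
    have hXd' : Continuous fun t => conj (xd φ t) := hXd
    fun_prop
  · intro k
    refine Eventually.of_forall fun t ht => ?_
    have b1 := hB1 t (uIoc_subset_uIcc ht)
    have b2 := hB2 t (uIoc_subset_uIcc ht)
    have b3 := hC k t
    rw [norm_mul, norm_mul, norm_mul, norm_div, norm_pow, norm_pow, norm_neg, RCLike.norm_conj,
      RCLike.norm_conj, Complex.norm_natCast, Complex.norm_real, Real.norm_eq_abs]
    have hB1' : 0 ≤ B1 := le_trans (norm_nonneg _) b1
    have hCM : 0 ≤ C * M ^ k := le_trans (norm_nonneg _) b3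
    calc |a| ^ k / (k.factorial : ℝ) * (‖xx φ t‖ ^ k * ‖s k t‖ * ‖xd φ t‖)
        ≤ |a| ^ k / (k.factorial : ℝ) * (B1 ^ k * (C * M ^ k) * B2) := by
          gcongr
      _ = (|a| * B1 * M) ^ k / (k.factorial : ℝ) * (C * B2) := by
          rw [mul_pow, mul_pow]; ring
  · refine Eventually.of_forall fun t ht => ?_
    exact (Real.summable_pow_div_factorial _).mul_right _
  · exact intervalIntegrable_const
  · refine Eventually.of_forall fun t ht => ?_
    have h5 := (hF t).mul_right (conj (xd φ t))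
    exact hs_congr (fun k => by rw [mul_pow]; ring) h5

/-- the family from K3, with the local terms put together and bounds for all indices `≥ -3` -/
structure Fam (φ : ℂ → ℂ) (r lam : ℝ) (N : ℤ → ℂ → ℂ) (C : ℝ) : Prop where
  dif : ∀ m, DifferentiableOn ℂ (N m) (ball 0 r)
  der : ∀ m, ∀ w ∈ ball (0 : ℂ) r, deriv (N (m + 1)) w = N m w * deriv φ w
  val : ∀ m : ℤ, -3 ≤ m → ∀ t : ℝ, N m (exp ((t : ℂ) * I)) =
    LL (lam / 4) φ m t + hh (lam / 4) φ m t
  bnd : ∀ m : ℤ, -3 ≤ m → ∀ w ∈ closedBall (0 : ℂ) 1, ‖N m w‖ ≤ C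

lemma fam (h1 : K1) (h1b : K1b) (h2 : K2) (h3 : K3) {φ : ℂ → ℂ} {r lam : ℝ} (hr : 1 < r)
    (hφ : DifferentiableOn ℂ φ (ball 0 r)) (hinj : InjOn φ (ball 0 r)) (hlam : 0 < lam)
    (hS : Solvable (φ '' ball 0 1) lam) : ∃ N C, Fam φ r lam N C := by
  obtain ⟨N, n1, n2, n3, n4, n5, n6, C, n7⟩ := h3 h1 h1b h2 φ r lam hr hφ hinj hlam hS
  have hsub : closedBall (0 : ℂ) 1 ⊆ ball 0 r := closedBall_subset_ball hr
  have hb : ∀ m, ∃ B, ∀ w ∈ closedBall (0 : ℂ) 1, ‖N m w‖ ≤ B := fun m =>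
    (isCompact_closedBall (0 : ℂ) 1).exists_bound_of_continuousOn
      ((n1 m).continuousOn.mono hsub)
  obtain ⟨B1, hB1⟩ := hb (-1)
  obtain ⟨B2, hB2⟩ := hb (-2)
  obtain ⟨B3, hB3⟩ := hb (-3)
  refine ⟨N, max (max B1 B2) (max B3 C), n1, n2, ?_, ?_⟩
  · intro m hm t
    rcases lt_or_ge m 0 with h | h
    · have : m = -1 ∨ m = -2 ∨ m = -3 := by omega
      rcases this with rfl | rfl | rfl
      · rw [n4 t]; simp [LL]
      · rw [n5 t]; simp [LL]
      · rw [n6 t]; simp [LL]
    · rw [n3 m h t]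
      unfold LL
      rw [if_neg (by omega), if_neg (by omega), if_neg (by omega), zero_add]
  · intro m hm w hw
    rcases lt_or_ge m 0 with h | h
    · have : m = -1 ∨ m = -2 ∨ m = -3 := by omega
      rcases this with rfl | rfl | rfl
      · exact (hB1 w hw).trans ((le_max_left _ _).trans (le_max_left _ _))
      · exact (hB2 w hw).trans ((le_max_right _ _).trans (le_max_left _ _))
      · exact (hB3 w hw).trans ((le_max_left _ _).trans (le_max_right _ _))
    · exact (n7 m h w hw).trans ((le_max_right _ _).trans (le_max_right _ _))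

lemma sum1 (h1 : K1) (h4 : K4) {φ : ℂ → ℂ} {r lam : ℝ} (hr : 1 < r)
    (hφ : DifferentiableOn ℂ φ (ball 0 r)) (hinj : InjOn φ (ball 0 r)) (hlam : 0 < lam)
    (hS : Solvable (φ '' ball 0 1) lam) {N : ℤ → ℂ → ℂ} {C : ℝ} (hN : Fam φ r lam N C)
    (m : ℤ) (hm : -3 ≤ m) (S : ℝ → ℂ)
    (hSs : ∀ t, HasSum (fun k : ℕ => (-((lam / 4 : ℝ) : ℂ) * conj (xx φ t)) ^ k /
      (k.factorial : ℂ) * LL (lam / 4) φ (m + k) t) (S t)) :
    ∫ t in (0 : ℝ)..(2 * Real.pi), (S t + HH (lam / 4) φ m t) * conj (xd φ t) = 0 := by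
  have g := h4 φ r lam hr hφ hinj hlam hS (fun k => N (m + k)) (fun k => hN.dif _)
    (fun k w hw => by
      have := hN.der (m + k) w hw
      have e : m + ((k + 1 : ℕ) : ℤ) = m + k + 1 := by push_cast; ring
      show deriv (N (m + ((k + 1 : ℕ) : ℤ))) w = _
      rw [e]; exact this)
    ⟨C, 1, fun k w hw => by rw [one_pow, mul_one]; exact hN.bnd _ (by omega) w hw⟩
  refine exch (lam / 4) hr hφ (fun k t => N (m + k) (exp ((t : ℂ) * I))) _
    (fun k => cont_circ hr (hN.dif _)) C 1 ?_ ?_ g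
  · intro k t
    rw [one_pow, mul_one]; exact hN.bnd _ (by omega) _ (mem_c t)
  · intro t
    have := ser h1 (lam / 4) hr hφ m t (S t) (hSs t)
    exact hs_congr (fun k => by rw [hN.val _ (by omega) t]) this

lemma sum2 (h1 : K1) (h4 : K4) {φ : ℂ → ℂ} {r lam : ℝ} (hr : 1 < r)
    (hφ : DifferentiableOn ℂ φ (ball 0 r)) (hinj : InjOn φ (ball 0 r)) (hlam : 0 < lam)
    (hS : Solvable (φ '' ball 0 1) lam) {N : ℤ → ℂ → ℂ} {C : ℝ} (hN : Fam φ r lam N C)
    (m : ℤ) (hm : -3 ≤ m) (S S2 : ℝ → ℂ)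
    (hSs : ∀ t, HasSum (fun k : ℕ => (-((lam / 4 : ℝ) : ℂ) * conj (xx φ t)) ^ k /
      (k.factorial : ℂ) * LL (lam / 4) φ (m + k) t) (S t))
    (hS2 : ∀ t, HasSum (fun k : ℕ => (-((lam / 4 : ℝ) : ℂ) * conj (xx φ t)) ^ k /
      (k.factorial : ℂ) * LL (lam / 4) φ (m + 2 + k) t) (S2 t)) :
    ∫ t in (0 : ℝ)..(2 * Real.pi), (xx φ t * (S t + HH (lam / 4) φ m t) +
      ((lam / 4 : ℝ) : ℂ) * conj (xx φ t) * (S2 t + HH (lam / 4) φ (m + 2) t)) *
      conj (xd φ t) = 0 := by
  have hsub : closedBall (0 : ℂ) 1 ⊆ ball 0 r := closedBall_subset_ball hr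
  obtain ⟨B, hB⟩ := (isCompact_closedBall (0 : ℂ) 1).exists_bound_of_continuousOn
    (hφ.continuousOn.mono hsub)
  have hC0 : 0 ≤ C := le_trans (norm_nonneg _) (hN.bnd 0 (by norm_num) 0 (by simp))
  have hB0 : 0 ≤ B := le_trans (norm_nonneg _) (hB 0 (by simp))
  have hbd : ∀ (k : ℕ) (w : ℂ), w ∈ closedBall (0 : ℂ) 1 →
      ‖φ w * N (m + k) w - (k : ℂ) * N (m + k + 1) w‖ ≤ (B + 1) * C * 2 ^ k := by
    intro k w hw
    have b1 := hB w hw
    have b2 := hN.bnd (m + k) (by omega) w hw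
    have b3 := hN.bnd (m + k + 1) (by omega) w hw
    have b4 : (k : ℝ) ≤ 2 ^ k := by exact_mod_cast (Nat.lt_two_pow_self (n := k)).le
    have b5 : (1 : ℝ) ≤ 2 ^ k := one_le_pow₀ (by norm_num)
    calc ‖φ w * N (m + k) w - (k : ℂ) * N (m + k + 1) w‖
        ≤ ‖φ w‖ * ‖N (m + k) w‖ + (k : ℝ) * ‖N (m + k + 1) w‖ := by
          refine (norm_sub_le _ _).trans ?_
          rw [norm_mul, norm_mul, Complex.norm_natCast]
      _ ≤ B * C + 2 ^ k * C := by gcongr
      _ ≤ B * C * 2 ^ k + 2 ^ k * C := by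
          have : B * C ≤ B * C * 2 ^ k := le_mul_of_one_le_right (by positivity) b5
          linarith
      _ = (B + 1) * C * 2 ^ k := by ring
  have g := h4 φ r lam hr hφ hinj hlam hS
    (fun k w => φ w * N (m + k) w - (k : ℂ) * N (m + k + 1) w)
    (fun k => (hφ.mul (hN.dif _)).sub ((hN.dif _).const_mul _))
    (fun k w hw => by
      have hd : ∀ n, DifferentiableAt ℂ (N n) w := fun n =>
        (hN.dif n w hw).differentiableAt (isOpen_ball.mem_nhds hw)
      have hdφ : DifferentiableAt ℂ φ w := (hφ w hw).differentiableAt (isOpen_ball.mem_nhds hw)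
      have e1 := hN.der (m + k) w hw
      have e2 := hN.der (m + k + 1) w hw
      have e : m + ((k + 1 : ℕ) : ℤ) = m + k + 1 := by push_cast; ring
      show deriv (fun w => φ w * N (m + ((k + 1 : ℕ) : ℤ)) w -
        ((k + 1 : ℕ) : ℂ) * N (m + ((k + 1 : ℕ) : ℤ) + 1) w) w = _
      rw [e]
      have h : HasDerivAt (fun w => φ w * N (m + k + 1) w -
          ((k + 1 : ℕ) : ℂ) * N (m + k + 1 + 1) w)
          (deriv φ w * N (m + k + 1) w + φ w * deriv (N (m + k + 1)) w -
            ((k + 1 : ℕ) : ℂ) * deriv (N (m + k + 1 + 1)) w) w :=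
        (hdφ.hasDerivAt.mul (hd _).hasDerivAt).sub ((hd _).hasDerivAt.const_mul _)
      rw [h.deriv, e1, e2]
      push_cast; ring)
    ⟨(B + 1) * C, 2, fun k w hw => hbd k w hw⟩
  refine exch (lam / 4) hr hφ (fun k t => φ (exp ((t : ℂ) * I)) * N (m + k) (exp ((t : ℂ) * I)) -
    (k : ℂ) * N (m + k + 1) (exp ((t : ℂ) * I))) _ (fun k => ?_) ((B + 1) * C) 2 ?_ ?_ g
  · have c1 := cont_circ hr hφ
    have c2 := cont_circ hr (hN.dif (m + k))
    have c3 := cont_circ hr (hN.dif (m + k + 1))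
    exact (c1.mul c2).sub (continuous_const.mul c3)
  · intro k t
    exact hbd k _ (mem_c t)
  · intro t
    have s1 := (ser h1 (lam / 4) hr hφ m t (S t) (hSs t)).mul_left (xx φ t)
    have s2 := (ser h1 (lam / 4) hr hφ (m + 2) t (S2 t) (hS2 t)).mul_left
      (((lam / 4 : ℝ) : ℂ) * conj (xx φ t))
    set Z : ℂ := -((lam / 4 : ℝ) : ℂ) * conj (xx φ t) with hZ
    have s3 : HasSum (fun k : ℕ => Z ^ k / (k.factorial : ℂ) *
        (-(k : ℂ) * N (m + k + 1) (exp ((t : ℂ) * I))))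
        (((lam / 4 : ℝ) : ℂ) * conj (xx φ t) * (S2 t + HH (lam / 4) φ (m + 2) t)) := by
      rw [← hasSum_nat_add_iff' 1]
      simp only [Finset.sum_range_one, Nat.cast_zero, neg_zero, zero_mul, mul_zero, sub_zero]
      refine hs_congr (fun k => ?_) s2
      rw [hN.val _ (by push_cast; omega) t]
      have e : m + ((k + 1 : ℕ) : ℤ) + 1 = m + 2 + k := by push_cast; ring
      rw [e, Nat.factorial_succ]
      have hk : ((k : ℂ) + 1) ≠ 0 := by exact_mod_cast Nat.succ_ne_zero k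
      have hk2 : (k.factorial : ℂ) ≠ 0 := by exact_mod_cast Nat.factorial_ne_zero k
      have e3 : ((lam / 4 : ℝ) : ℂ) * conj (xx φ t) = -Z := by rw [hZ]; ring
      rw [e3]
      push_cast
      field_simp
      ring
    have s4 := s1.add s3
    refine hs_congr (fun k => ?_) s4
    rw [hN.val _ (by omega) t]
    show _ = xx φ t * _ + _
    simp only [xx]
    ring

lemma xXd0 {φ : ℂ → ℂ} {r : ℝ} (hr : 1 < r) (hφ : DifferentiableOn ℂ φ (ball 0 r)) :
    ∫ t in (0 : ℝ)..(2 * Real.pi), conj (xx φ t) * conj (xd φ t) = 0 := by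
  have hx := xx_cont hr hφ
  have hxd := xd_cont hr hφ
  have hX : Continuous fun t => conj (xx φ t) := Complex.continuous_conj.comp hx
  have hXd : Continuous fun t => conj (xd φ t) := Complex.continuous_conj.comp hxd
  have hd : ∀ t : ℝ, HasDerivAt (fun t => conj (xx φ t)) (conj (xd φ t)) t := fun t => by
    have := (xx_der hr hφ t).star
    exact this
  have hd2 : ∀ t : ℝ, HasDerivAt (fun t => conj (xx φ t) ^ 2 / 2)
      (conj (xx φ t) * conj (xd φ t)) t := fun t => by
    have := ((hd t).pow 2).div_const 2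
    refine this.congr_deriv ?_
    norm_num; ring
  rw [intervalIntegral.integral_eq_sub_of_hasDerivAt (fun t _ => hd2 t)
    ((hX.mul hXd).intervalIntegrable _ _), xx_per]
  ring

theorem t_K5b : K5b := by
  intro h1 h1b h2 h3 h4 φ r lam hr hφ hinj hlam hS
  obtain ⟨N, C, hN⟩ := fam h1 h1b h2 h3 hr hφ hinj hlam hS
  have hx := xx_cont hr hφ
  have hxd := xd_cont hr hφ
  have hX : Continuous fun t => conj (xx φ t) := Complex.continuous_conj.comp hx
  have hXd : Continuous fun t => conj (xd φ t) := Complex.continuous_conj.comp hxd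
  have hne : ∀ t, xd φ t ≠ 0 := fun t => by
    unfold xd
    exact mul_ne_zero (mul_ne_zero I_ne_zero (exp_ne_zero _))
      (Pool.Agent.Helper202.Geom.deriv_ne_zero_of_injOn isOpen_ball hφ hinj (mem_r hr t))
  have hq : Continuous fun t => conj (xd φ t) / xd φ t := hXd.div hxd hne
  have H3 := HH_cont h1 (lam / 4) hr hφ (-3)
  have H1 := HH_cont h1 (lam / 4) hr hφ (-1)
  constructor
  · have e := sum1 h1 h4 hr hφ hinj hlam hS hN (-3) le_rfl
      (fun t => ((lam / 4 : ℝ) : ℂ) * (conj (xd φ t) / xd φ t))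
      (fun t => loc3 (lam / 4) φ t)
    rw [← e]
    unfold J1 UU
    rw [← intervalIntegral.integral_const_mul, ← intervalIntegral.integral_add]
    · congr 1
      funext t
      ring
    · apply Continuous.intervalIntegrable
      exact continuous_const.mul ((hXd.pow 2).div hxd hne)
    · exact (H3.mul hXd).intervalIntegrable _ _
  · have e := sum2 h1 h4 hr hφ hinj hlam hS hN (-3) le_rfl
      (fun t => ((lam / 4 : ℝ) : ℂ) * (conj (xd φ t) / xd φ t)) (fun t => 1)
      (fun t => loc3 (lam / 4) φ t) (fun t => loc2 (lam / 4) φ t)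
    have e0 := xXd0 hr hφ
    have e1 : ((lam / 4 : ℝ) : ℂ) * J2 φ + (VV (lam / 4) φ (-3) +
        ((lam / 4 : ℝ) : ℂ) * WW (lam / 4) φ (-1)) + ((lam / 4 : ℝ) : ℂ) *
        (∫ t in (0 : ℝ)..(2 * Real.pi), conj (xx φ t) * conj (xd φ t)) = 0 := by
      rw [← e]
      have i1 : Continuous fun t => ((lam / 4 : ℝ) : ℂ) *
        (xx φ t * (conj (xd φ t) ^ 2 / xd φ t)) :=
        continuous_const.mul (hx.mul ((hXd.pow 2).div hxd hne))
      have i2 : Continuous fun t => xx φ t * HH (lam / 4) φ (-3) t * conj (xd φ t) :=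
        (hx.mul H3).mul hXd
      have i3 : Continuous fun t => ((lam / 4 : ℝ) : ℂ) *
        (conj (xx φ t) * HH (lam / 4) φ (-1) t * conj (xd φ t)) :=
        continuous_const.mul ((hX.mul H1).mul hXd)
      have i4 : Continuous fun t => ((lam / 4 : ℝ) : ℂ) * (conj (xx φ t) * conj (xd φ t)) :=
        continuous_const.mul (hX.mul hXd)
      have i5 : Continuous fun t => xx φ t * HH (lam / 4) φ (-3) t * conj (xd φ t) +
        ((lam / 4 : ℝ) : ℂ) * (conj (xx φ t) * HH (lam / 4) φ (-1) t * conj (xd φ t)) :=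
        i2.add i3
      have i6 : Continuous fun t => ((lam / 4 : ℝ) : ℂ) *
        (xx φ t * (conj (xd φ t) ^ 2 / xd φ t)) +
        (xx φ t * HH (lam / 4) φ (-3) t * conj (xd φ t) +
        ((lam / 4 : ℝ) : ℂ) * (conj (xx φ t) * HH (lam / 4) φ (-1) t * conj (xd φ t))) :=
        i1.add i5
      unfold J2 VV WW
      rw [← intervalIntegral.integral_const_mul, ← intervalIntegral.integral_const_mul,
        ← intervalIntegral.integral_const_mul,
        ← intervalIntegral.integral_add (i2.intervalIntegrable _ _) (i3.intervalIntegrable _ _),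
        ← intervalIntegral.integral_add (i1.intervalIntegrable _ _)
          (i5.intervalIntegrable _ _),
        ← intervalIntegral.integral_add (i6.intervalIntegrable _ _)
          (i4.intervalIntegrable _ _)]
      · congr 1
        funext t
        show _ = (xx φ t * (((lam / 4 : ℝ) : ℂ) * (conj (xd φ t) / xd φ t) +
          HH (lam / 4) φ (-3) t) + ((lam / 4 : ℝ) : ℂ) * conj (xx φ t) *
          (1 + HH (lam / 4) φ (-1) t)) * conj (xd φ t)
        ring
    rw [e0, mul_zero, add_zero] at e1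
    exact e1

theorem t_K5a : K5a := by
  intro h1 h1b h2 h3 h4 φ r lam hr hφ hinj hlam hS
  obtain ⟨N, C, hN⟩ := fam h1 h1b h2 h3 hr hφ hinj hlam hS
  have hx := xx_cont hr hφ
  have hxd := xd_cont hr hφ
  have hX : Continuous fun t => conj (xx φ t) := Complex.continuous_conj.comp hx
  have hXd : Continuous fun t => conj (xd φ t) := Complex.continuous_conj.comp hxd
  have H3 := HH_cont h1 (lam / 4) hr hφ 3
  have H1 := HH_cont h1 (lam / 4) hr hφ 1
  refine ⟨?_, ?_, ?_⟩
  · have e := sum1 h1 h4 hr hφ hinj hlam hS hN 3 (by norm_num) (fun _ => 0)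
      (fun t => locp (lam / 4) φ t 3 (by norm_num))
    unfold UU
    simpa only [zero_add] using e
  · have e := sum1 h1 h4 hr hφ hinj hlam hS hN 2 (by norm_num) (fun _ => 0)
      (fun t => locp (lam / 4) φ t 2 (by norm_num))
    unfold UU
    simpa only [zero_add] using e
  · have e := sum2 h1 h4 hr hφ hinj hlam hS hN 1 (by norm_num) (fun _ => 0) (fun _ => 0)
      (fun t => locp (lam / 4) φ t 1 (by norm_num))
      (fun t => locp (lam / 4) φ t (1 + 2) (by norm_num))
    rw [← e]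
    unfold VV WW
    rw [← intervalIntegral.integral_const_mul, ← intervalIntegral.integral_add]
    · congr 1
      funext t
      show _ = (xx φ t * (0 + HH (lam / 4) φ 1 t) + ((lam / 4 : ℝ) : ℂ) * conj (xx φ t) *
          (0 + HH (lam / 4) φ 3 t)) * conj (xd φ t)
      ring
    · exact ((hx.mul H1).mul hXd).intervalIntegrable _ _
    · exact (continuous_const.mul ((hX.mul H3).mul hXd)).intervalIntegrable _ _

end Pool.Agent.E8helper4.FV
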